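import Pool.Agent.AHH.StmtsR
import Pool.Agent.Helper28_AHH.Mid
import Pool.Agent.Helper61_AHH.RegN

/-!
# AHH, field FIN: the end of a stage
-/

set_option autoImplicit false

open scoped BigOperators NNReal Matrix

noncomputable section

namespace Pool.Agent.AHH.H42

open Pool.Agent.BED (Tor)
open Pool.Agent.AND2B (net kap Prd Ev Viol)
open Pool.Agent.ANP (Cfg Geo Fc)
open Pool.Agent.AND.Num
open Pool.Agent.AHH.H61
open Pool.Agent.AHH.H28 (Nm fia mem_Al)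

variable {d : ℕ}

/-- the effect of the regauging on the thresholds, `Cr` from REG, `Cw` from WTS -/
def gx (Cr Cw s mis : ℝ) : ℝ := Cr * (1 + Real.log (Cw * s ^ (-Cw))) * mis

/-- the numbers before the regauging -/
abbrev fq (V : AND2B.Env d) (n k : ℕ) : Num := q1f V ((1 + (V.th : ℝ)) / 2) n k

/-- the dead sites of the levels `j < n` -/
theorem sumD (d : ℕ) (a es c C : ℝ) :
    Ev d a es c C fun V => ∀ n ≤ V.N + 1, ∀ s : ℝ, 0 < s → s ≤ V.sg n → s ≤ 1 ∧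
      ∑ j ∈ Finset.range n, (3 ^ d * V.Dn j : ℝ) / 2 ^ V.l j ≤ 1 / 4 ∧
      2 + 4 * ∑ j ∈ Finset.range n, (3 ^ d * V.Dn j : ℝ) ≤ s ^ (-2 : ℝ) := by
  have h1 : Ev d a es c C fun V => ∀ s : ℝ, 0 < s → s ≤ V.w →
      (s ≤ 1 ∧ 2 * s ^ (0 : ℝ) ≤ 1 / 2 * s ^ (-2 : ℝ)) ∧
      (4 * 3 ^ d * (1 / (1 - (V.th : ℝ) ^ (5 / 4 : ℝ)))) * s ^ (-(5 / 4) : ℝ) ≤
        1 / 2 * s ^ (-2 : ℝ) := by
    refine ev_small (fun th _ _ _ _ s =>
      (s ≤ 1 ∧ 2 * s ^ (0 : ℝ) ≤ 1 / 2 * s ^ (-2 : ℝ)) ∧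
      (4 * 3 ^ d * (1 / (1 - (th : ℝ) ^ (5 / 4 : ℝ)))) * s ^ (-(5 / 4) : ℝ) ≤
        1 / 2 * s ^ (-2 : ℝ)) ?_
    intro th c₁ C₁ α J _ _ _ _
    exact ((small_le 1 one_pos).and (small_pow' _ _ _ _ (by norm_num) (by norm_num))).and
      (small_pow' _ _ _ _ (by norm_num) (by norm_num))
  refine (h1.and ev_good).imp fun V hV n hn s hs hs' => ?_
  obtain ⟨h1, hG⟩ := hV
  have hP := hG.toPre
  have hsw := hs'.trans (sg_le hP n)
  obtain ⟨⟨g1, g2⟩, g3⟩ := h1 s hs hsw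
  have hth0 : (0 : ℝ) < V.th := by exact_mod_cast th_pos hP
  have hth1 : (V.th : ℝ) ^ (5 / 4 : ℝ) < 1 := th_rpow_lt hP (by norm_num)
  have hK : 0 < 1 - (V.th : ℝ) ^ (5 / 4 : ℝ) := by linarith
  refine ⟨g1, ?_, ?_⟩
  · refine le_trans ?_ hP.sc.ds
    refine Finset.sum_le_sum_of_subset_of_nonneg ?_ fun i _ _ => by positivity
    intro i hi
    rw [Finset.mem_range] at hi ⊢
    omega
  · have hS : ∀ n ≤ V.N + 1, ∑ j ∈ Finset.range n, (V.Dn j : ℝ) ≤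
        1 / (1 - (V.th : ℝ) ^ (5 / 4 : ℝ)) * V.sg n ^ (-(5 / 4) : ℝ) := by
      intro n
      induction n with
      | zero =>
        intro _
        rw [Finset.range_zero, Finset.sum_empty]
        have := sg_pos hP 0
        positivity
      | succ n ih =>
        intro hn
        rw [Finset.sum_range_succ]
        have e1 := ih (by omega)
        have e2 := hP.sc.dl n (by omega)
        have e3 := sg_succ hP n
        have p0 := sg_pos hP n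
        have p1 := sg_pos hP (n + 1)
        have e4 : V.sg n ^ (-(5 / 4) : ℝ) ≤
            (V.th : ℝ) ^ (5 / 4 : ℝ) * V.sg (n + 1) ^ (-(5 / 4) : ℝ) := by
          have e5 : (V.th * V.sg n : ℝ) ^ (-(5 / 4) : ℝ) ≤ V.sg (n + 1) ^ (-(5 / 4) : ℝ) :=
            Real.rpow_le_rpow_of_nonpos p1 e3 (by norm_num)
          rw [Real.mul_rpow hth0.le p0.le] at e5
          have e6 : (V.th : ℝ) ^ (5 / 4 : ℝ) * (V.th : ℝ) ^ (-(5 / 4) : ℝ) = 1 := by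
            rw [← Real.rpow_add hth0]
            norm_num
          calc V.sg n ^ (-(5 / 4) : ℝ) =
              (V.th : ℝ) ^ (5 / 4 : ℝ) * ((V.th : ℝ) ^ (-(5 / 4) : ℝ) *
                V.sg n ^ (-(5 / 4) : ℝ)) := by rw [← mul_assoc, e6, one_mul]
            _ ≤ _ := mul_le_mul_of_nonneg_left e5 (by positivity)
        have e7 : (V.Dn n : ℝ) ≤ V.sg (n + 1) ^ (-(5 / 4) : ℝ) := e2
        have e8 := mul_le_mul_of_nonneg_left e4 (one_div_pos.2 hK).le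
        have e9 : 1 / (1 - (V.th : ℝ) ^ (5 / 4 : ℝ)) *
            ((V.th : ℝ) ^ (5 / 4 : ℝ) * V.sg (n + 1) ^ (-(5 / 4) : ℝ)) +
            V.sg (n + 1) ^ (-(5 / 4) : ℝ) =
            1 / (1 - (V.th : ℝ) ^ (5 / 4 : ℝ)) * V.sg (n + 1) ^ (-(5 / 4) : ℝ) := by
          field_simp
          ring
        linarith
    have e1 := hS n hn
    have e2 : V.sg n ^ (-(5 / 4) : ℝ) ≤ s ^ (-(5 / 4) : ℝ) :=
      Real.rpow_le_rpow_of_nonpos hs hs' (by norm_num)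
    have e3 := e1.trans (mul_le_mul_of_nonneg_left e2 (one_div_pos.2 hK).le)
    have e4 : ∑ j ∈ Finset.range n, (3 ^ d * V.Dn j : ℝ) =
        3 ^ d * ∑ j ∈ Finset.range n, (V.Dn j : ℝ) := by
      rw [Finset.mul_sum]
    rw [e4]
    have e5 := mul_le_mul_of_nonneg_left e3 (by positivity : (0 : ℝ) ≤ 4 * 3 ^ d)
    rw [Real.rpow_zero] at g2
    nlinarith [e5, g2, g3]

/-- FIELD FIN, for one environment -/
theorem fin_core {a c C Cr Cw : ℝ} (hC : 1 ≤ C) (hCw : 1 ≤ Cw)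
    (hR : ∀ (d M : ℕ) [NeZero M] (V : Env d M) (q q' : Num) (s N : ℝ) (T : Cfg (Tor d M))
      (run : Finset (Tor d M)), V.c₀ = c / 2 → V.C₀ = 2 * C → 1 ≤ N →
      RegH V q q' s (Cr * (1 + Real.log N) * q.mis) → StN V q s T run →
      (∀ x ∈ run, (T.s x : ℝ) = s) → (∀ x ∈ Al T, (V.G₀ x x).im ≤ 2 * C) →
      Wts V T run s (1 / 16) N → ∃ m, StN V q' s (T.rg m) run)
    (hW : ∀ (V : AND2B.Env d) (U : Env d (2 ^ V.μ)), Monotone V.l → U.Γ = V.G → 0 < U.e₀ →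
      U.c₀ = c / 2 → U.C₀ = 2 * C → ∀ (T : Cfg V.X) (run : Finset V.X) (s δ : ℝ) (n : ℕ)
      (dd : ℕ → Finset V.X), 0 < s → s ≤ 1 → (∀ x ∈ run, (T.s x : ℝ) = s) →
      (∀ x, T.s x = 0 ∨ s ≤ T.s x) → Gb U T δ →
      (∀ x ∈ run, ‖net U.E U.e₀ T x x - T.mb x‖ ≤ c / 2 / 4) →
      (∀ x, T.s x = 0 → ∃ j < n, x ∈ dd j) → (∀ j B, (dd j ∩ V.G.blk j B).card ≤ V.Dn j) →
      ∑ j ∈ Finset.range n, (3 ^ d * V.Dn j : ℝ) / 2 ^ V.l j ≤ 1 / 4 →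
      2 + 4 * ∑ j ∈ Finset.range n, (3 ^ d * V.Dn j : ℝ) ≤ s ^ (-2 : ℝ) →
        Wts U T run s (1 / 16) (Cw * s ^ (-Cw)))
    {V : AND2B.Env d} (hG : V.Good a es c C) (hNm : ∀ n k, Nm (toE V c C) (bud V) n k)
    (hD : ∀ n ≤ V.N + 1, ∀ s : ℝ, 0 < s → s ≤ V.sg n → s ≤ 1 ∧
      ∑ j ∈ Finset.range n, (3 ^ d * V.Dn j : ℝ) / 2 ^ V.l j ≤ 1 / 4 ∧
      2 + 4 * ∑ j ∈ Finset.range n, (3 ^ d * V.Dn j : ℝ) ≤ s ^ (-2 : ℝ))
    (hr : ∀ k, k ≤ V.kk (V.N + 1) → ∀ g : ℝ, c / 2 ≤ g →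
      V.e₀ + (V.cl (k + 1) : ℝ) * g ≤ (1 + (V.th : ℝ)) / 2 * (V.e₀ + (V.cl k : ℝ) * g))
    (hF : ∀ n k, n ≤ V.N → V.kk n ≤ k → k < V.kk (n + 1) →
      RegH (toE V c C) (fq V n k) (qq V n (k + 1)) (V.cl (k + 1))
        (gx Cr Cw (V.cl (k + 1)) (fq V n k).mis)) : (Z d a es c C).Fin V := by
  intro n k T₀ run₀ T run hn hk hk' hv0 hv hS0 hF0 hFc hM
  change Md (toE V c C) (bud V) n k T₀ run₀ Finset.univ T run at hM
  have hP := hG.toPre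
  have hk1 := cl_pos' hP (k + 1)
  have hRH := hF n k hn hk hk'
  have hs1 : (V.cl (k + 1) : ℝ) ≤ V.sg n := cl_anti' hP (by omega)
  obtain ⟨d1, d2, d3⟩ := hD n (by omega) _ hk1 hs1
  -- before the regauging
  have hN1 : StN (toE V c C) (fq V n k) (V.cl (k + 1)) T run :=
    fia (hNm n k) (fun x => Psi_le_Gt d V.μ V.J V.N V.l V.r n _ x) hFc (by exact_mod_cast hk1) hM
      (fun g hg => hr k (hk'.le.trans (kk_mono hP (by omega))) g hg) le_rfl le_rfl le_rfl le_rfl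
      le_rfl le_rfl
  have hrs : ∀ x ∈ run, (T.s x : ℝ) = V.cl (k + 1) := fun x hx => by
    have := hFc.runs x hx
    rw [if_pos (Finset.mem_univ x)] at this
    rw [this]
  have hsx : ∀ x, T.s x = 0 ∨ (V.cl (k + 1) : ℝ) ≤ T.s x := by
    intro x
    by_cases hx : x ∈ run
    · exact Or.inr (hrs x hx).ge
    · rcases hFc.rest x hx with h | h
      · exact Or.inl h
      · rw [if_pos (Finset.mem_univ x)] at h
        exact Or.inr (by exact_mod_cast h.1)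
  obtain ⟨dd, hdd, hcard⟩ := hM.ded
  have hwt := hW V (toE V c C) hP.sc.lm rfl hG.e0 rfl rfl T run _ _ n dd hk1 d1 hrs hsx hN1.gau
    (fun x hx => (hN1.mis x hx).trans hRH.mis0.2) hdd hcard d2 d3
  have h1N : 1 ≤ Cw * (V.cl (k + 1) : ℝ) ^ (-Cw) := by
    have : 1 ≤ (V.cl (k + 1) : ℝ) ^ (-Cw) := by
      rw [Real.rpow_neg hk1.le]
      exact (one_le_inv₀ (Real.rpow_pos_of_pos hk1 _)).2
        (Real.rpow_le_one hk1.le d1 (by linarith))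
    nlinarith
  obtain ⟨m, hm⟩ := hR d (2 ^ V.μ) (toE V c C) (fq V n k) (qq V n (k + 1)) (V.cl (k + 1))
    (Cw * (V.cl (k + 1) : ℝ) ^ (-Cw)) T run rfl rfl h1N hRH hN1 hrs (fun x _ => by
      show (LE.QD.rs (0 : Tor d (2 ^ V.μ) → ℝ) V.ζ x x).im ≤ 2 * C
      rw [hG.st.hm x]
      have h1 := hG.st.hc.2
      have h2 := Complex.abs_im_le_norm V.m
      have h3 := le_abs_self V.m.im
      linarith) hwt
  exact ⟨m, hm, hM.old, hM.ded⟩

/-- the numbers of the field `fin` -/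
def StpFStmt : Prop :=
  ∀ (d : ℕ) (a c C Cr Cw : ℝ), 3 ≤ d → 0 < a → 0 < c → c ≤ 1 / 2 → 1 ≤ C → 1 ≤ Cr → 1 ≤ Cw →
    Ev d a es c C fun V => ∀ n k, n ≤ V.N → V.kk n ≤ k → k < V.kk (n + 1) →
      Stp (q1f V ((1 + (V.th : ℝ)) / 2) n k) (qq V n (k + 1)) (V.cl (k + 1))
        (Cr * (1 + Real.log (Cw * (V.cl (k + 1) : ℝ) ^ (-Cw))) *
          (q1f V ((1 + (V.th : ℝ)) / 2) n k).mis)

/-- FIELD FIN -/
theorem finF (hReg : RegStmt) (hWts : WtsStmt) (hNum : StpFStmt) : FinF := by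
  intro d a c C hd ha hc hc' hC
  obtain ⟨Cr, hCr, hR⟩ := hReg (c / 2) (2 * C) (by linarith) (by linarith) (by linarith)
  obtain ⟨Cw, hCw, hW⟩ := hWts d (c / 2) (2 * C) hd (by linarith) (by linarith) (by linarith)
  refine ((((hNum d a c C Cr Cw hd ha hc hc' hC hCr hCw).and (sumD d a es c C)).and
    (nm d a c C hc hC)).and ((((regH d a c C hc hc' hC).and (bse_f d a c C hc hc' hC)).and
      (ratio d a c C hc)).and ev_good)).imp fun V hV => ?_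
  obtain ⟨⟨⟨h1, h2⟩, h3⟩, ⟨⟨h4, h5⟩, h6⟩, h7⟩ := hV
  refine fin_core hC hCw hR hW h7 h3 h2 h6 fun n k hn hk hk' => ?_
  have hth : (0 : ℝ) ≤ V.th := NNReal.coe_nonneg _
  have hth1 : (V.th : ℝ) < 1 := by exact_mod_cast h7.th.2
  exact h4 n (k + 1) _ _ _ (cl_pos' h7.toPre _) (h5 _ n k (by linarith) (by linarith) hn)
    (h1 n k hn hk hk')

end Pool.Agent.AHH.H42
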