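import Pool.Agent.Helper42_AHH.Fin
import Pool.Agent.Helper72_AHH.RegAll
import Pool.Agent.Helper72_AHH.WtsT
import Pool.Agent.Helper96_AHH.Stp

/-!
# AHH, field FIN, without hypotheses
-/

set_option autoImplicit false

open scoped BigOperators NNReal

noncomputable section

namespace Pool.Agent.AHH.H42

open Pool.Agent.AND2B (Ev)

theorem stpF : StpFStmt := by
  intro d a c C Cr Cw _ _ _ _ _ hCr hCw
  exact (Pool.Agent.AHH.H96.sixF d a c C Cr Cw (by linarith) hCw).imp
    fun V h n k _ _ _ => h n k _ le_rfl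

/-- FIELD FIN -/
theorem finT : FinF := finF Pool.Agent.AHH.H72.regT Pool.Agent.AHH.H72.wtsT stpF

end Pool.Agent.AHH.H42
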